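import Pool.Agent.H656R2.AK.AKIn
import Pool.Agent.H656R2.AK.TQPoly

/-!
# ARC-KAYLES is PSPACE-complete

The reduction from quantified Boolean formulas goes through generalized geography on bipartite
directed graphs. Every node of the directed graph becomes a hub vertex together with small
components (paths, a triangle with three pendant vertices, edges) whose Grundy values are `0`, `1`,
`2` or `3`; the hubs are pairwise non-adjacent. At each moment of correct play exactly one hub is
active, and the sum of the Grundy values of the components is the critical value of its side;
every deviation is answered by a move to a position of the class `ZP` of positions which are lost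
for the player to move.
-/

namespace Pool.Agent.Results.MP_0d760e_lc.PSPACEComplete

open Pool.Agent.NPC Pool.Agent.H623R2.PS Pool.Agent.H656R2.AK

/-- The decision problem ARC-KAYLES (given a graph, does the first player win?) is complete for
`PSPACE` under polynomial-time many-one reductions. It is in `P` if and only if every language in
`PSPACE` is. -/
theorem result :
    Pool.Agent.H623R2.PS.PSPACEComplete (lang ArcKayles) ∧
      (InP (lang ArcKayles) ↔ ∀ L : Set (List Bool), InPSPACE L → InP L) :=
  ⟨⟨arcKayles_mem, arcKayles_hard⟩, fun h L hL => InP.of_reduces (arcKayles_hard L hL) h,
    fun h => h _ arcKayles_mem⟩

end Pool.Agent.Results.MP_0d760e_lc.PSPACEComplete
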